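import Mathlib
import Pool.Agent.Y731.GO.Orb

set_option autoImplicit false

/-!
# MP_464c42_nt: Campana points with sparse coordinates on all C-pairs of general type over `ℚ`

`X` is a smooth projective variety of dimension `N` in `ℙ^(N + s)` with the equations `G k = 0`
(any number of them), `D = D_1 + ⋯ + D_q` a divisor of `X` with strict normal crossings, `D_i` the
subvariety of `X` with the equations `F i j = 0`, `j < w`, `F i j` of degree `d i j` (not
necessarily a hypersurface section), `m i` the multiplicity of `D_i` (possibly infinite),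
`Δ = ∑ (1 - 1 / m i) D_i`.

The points considered: `Γ` is a finitely generated group of nonzero rational numbers, `k` a number.
The coordinates of `x` and the factors `y l`, `c i j` of a factorisation
`F i j (x) = c i j * ∏ l, y l ^ ex i l` of the equations of `D` at `x` are sums of `k` products of
elements of `Γ` and integers of absolute value at most `M`; the `c i j`, `j < w`, have no common prime
divisors outside `S`, and the exponents `ex i l` are zero or at least `m i`. These are Campana points
of the pair `(X, Δ)` over the ring of `S`-integers.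

First part: `h_(K + Δ)(x) ≤ ε h(x) + C (1 + log M)` outside a proper closed subset, for all pairs.
Second part: if the pair is of general type then, outside a proper closed subset, the height of these
points is at most `C (1 + log M)`; in particular there are only finitely many for every `M`, and they
are not dense.
-/

namespace Pool.Agent.Results.MP_464c42_nt.AllPairsSparse

open MvPolynomial

/-- `x` is a primitive integer vector; every rational point of a projective space is represented by
exactly two of them, `x` and `-x` -/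
def IsPrimitive {M : ℕ} (x : Fin M → ℤ) : Prop :=
  Finset.univ.gcd x = 1

/-- `max |x_i|`, the multiplicative height of the point given by a primitive `x` -/
def height {M : ℕ} (x : Fin M → ℤ) : ℕ :=
  Finset.univ.sup (fun i => (x i).natAbs)

/-- `x` is a point of the variety `X` -/
def OnX {M g : ℕ} (G : Fin g → MvPolynomial (Fin M) ℤ) (x : Fin M → ℤ) : Prop :=
  ∀ k, eval x (G k) = 0

/-- The height `h_(D_i)(x)` of the point given by a primitive `x` with respect to the divisor with
the equations `F j = 0`, `F j` of degree `d j`: the sum of all local heights, at the prime `p` minus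
the logarithm of `max_j |F j x|_p` (together the logarithm of the greatest common divisor of the
`F j x`), at the infinite place minus the logarithm of `max_j |F j x| / max |x_c| ^ d j`. -/
noncomputable def componentHeight {M w : ℕ} (F : Fin w → MvPolynomial (Fin M) ℤ)
    (d : Fin w → ℕ) (x : Fin M → ℤ) : ℝ :=
  Real.log ((Finset.univ.gcd fun j => eval x (F j) : ℤ) : ℝ) -
    Real.log (⨆ j, |((eval x (F j) : ℤ) : ℝ)| / (height x : ℝ) ^ d j)

/-- The intersection number `n_p(D_i, x)` of the point given by a primitive `x` and the divisor with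
the equations `F j = 0` at the prime `p`: the exponent of `p` in the greatest common divisor of the
`F j x`. -/
noncomputable def intersection {M w : ℕ} (F : Fin w → MvPolynomial (Fin M) ℤ) (p : ℕ)
    (x : Fin M → ℤ) : ℕ :=
  (Finset.univ.gcd fun j => eval x (F j)).natAbs.factorization p

/-- The point given by a primitive `x` is a Campana point over the `S`-integers: at all primes outside
`S` the intersection number with `D_i` is zero or at least `m i`. -/
def IsCampana {M q w : ℕ} (S : Finset ℕ) (F : Fin q → Fin w → MvPolynomial (Fin M) ℤ)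
    (m : Fin q → ℕ∞) (x : Fin M → ℤ) : Prop :=
  ∀ (i : Fin q) (p : ℕ), p.Prime → p ∉ S →
    intersection (F i) p x = 0 ∨ m i ≤ (intersection (F i) p x : ℕ∞)

/-- `1 - 1 / m`, with `1 / ∞ = 0` -/
noncomputable def coefficient (m : ℕ∞) : ℝ := if m = ⊤ then 1 else 1 - 1 / (m.toNat : ℝ)

/-- The columns of `A` are a basis of the tangent space of the affine cone over `X` at `x` (the
vectors orthogonal to all gradients of equations), `X` being smooth of dimension `N` at `x`. -/
def IsTangentBasis {M N g : ℕ} (G : Fin g → MvPolynomial (Fin M) ℤ) (x : Fin M → ℤ)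
    (A : Matrix (Fin M) (Fin (N + 1)) ℤ) : Prop :=
  LinearIndependent ℚ (fun c : Fin (N + 1) => fun j : Fin M => (A j c : ℚ)) ∧
    ∀ k c, ∑ j, eval x (pderiv j (G k)) * A j c = 0

/-- The maximal minor of `A` with the rows `J`. -/
def minor {M N : ℕ} (A : Matrix (Fin M) (Fin (N + 1)) ℤ) (J : Fin (N + 1) → Fin M) : ℤ :=
  (A.submatrix J id).det

/-- The height `h_K(x)` for the canonical class `K` of `X`. The Gauss map `γ` sends a point of `X` to
its embedded tangent space, `γ^* O(1) = K + (N + 1) H` for the hyperplane class `H`, and `h_K(x)` is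
the height of `γ(x)` (the logarithm of the maximum of the absolute values of the Plücker coordinates,
divided by their greatest common divisor) minus `(N + 1) h(x)`. -/
noncomputable def canonicalHeight {M N : ℕ} (x : Fin M → ℤ) (A : Matrix (Fin M) (Fin (N + 1)) ℤ) :
    ℝ :=
  Real.log (((Finset.univ.sup (fun J : Fin (N + 1) → Fin M => (minor A J).natAbs) : ℕ) : ℝ) /
    ((Finset.univ.gcd (fun J : Fin (N + 1) → Fin M => minor A J) : ℤ) : ℝ)) -
    (N + 1) * Real.log (height x)

/-- The height `h_(K + Δ)(x)`, `Δ = ∑ (1 - 1 / m i) D_i`. -/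
noncomputable def pairHeight {M N q w : ℕ} (F : Fin q → Fin w → MvPolynomial (Fin M) ℤ)
    (d : Fin q → Fin w → ℕ) (m : Fin q → ℕ∞) (x : Fin M → ℤ)
    (A : Matrix (Fin M) (Fin (N + 1)) ℤ) : ℝ :=
  canonicalHeight x A + ∑ i, coefficient (m i) * componentHeight (F i) (d i) x

/-- The dimension of `X` is at least `N`: some `N + 1` coordinates are algebraically independent on
the cone over `X`. -/
def DimGE {M g : ℕ} (N : ℕ) (G : Fin g → MvPolynomial (Fin M) ℤ) : Prop :=
  ∃ J : Fin (N + 1) → Fin M, ∀ P : MvPolynomial (Fin (N + 1)) ℚ,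
    (∀ z : Fin M → ℂ, (∀ k, aeval z (G k) = 0) → aeval (fun i => z (J i)) P = 0) → P = 0

/-- `X` is smooth of codimension `s` and `D` has strict normal crossings on `X`: at each point `z` of
`X` with complex coordinates, for suitable `s` equations of `X` and one equation of each component of
`D` through `z` all gradients at `z` are linearly independent. -/
def SmoothPair {M g q w : ℕ} (s : ℕ) (G : Fin g → MvPolynomial (Fin M) ℤ)
    (F : Fin q → Fin w → MvPolynomial (Fin M) ℤ) : Prop :=
  ∀ z : Fin M → ℂ, z ≠ 0 → (∀ k, aeval z (G k) = 0) →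
    ∃ (K : Fin s → Fin g) (J : Fin q → Fin w),
      LinearIndependent ℂ (Sum.elim
        (fun a : Fin s => fun y : Fin M => aeval z (pderiv y (G (K a))))
        (fun i : {i : Fin q // ∀ j, aeval z (F i j) = 0} => fun y : Fin M =>
          aeval z (pderiv y (F i.1 (J i.1)))))

/-- The form `P` does not vanish on `X`. -/
def NonZeroOn {M g : ℕ} (G : Fin g → MvPolynomial (Fin M) ℤ) (P : MvPolynomial (Fin M) ℚ) : Prop :=
  ∃ z : Fin M → ℂ, (∀ k, aeval z (G k) = 0) ∧ aeval z P ≠ 0

/-- `X` is irreducible. -/
def Irred {M g : ℕ} (G : Fin g → MvPolynomial (Fin M) ℤ) : Prop :=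
  ∀ P Q : MvPolynomial (Fin M) ℚ, NonZeroOn G P → NonZeroOn G Q → NonZeroOn G (P * Q)

/-- The pair `(X, Δ)` is of general type, `K + Δ` is big, in terms of heights: the height is at most
`a h_(K + Δ) + b` for some `a > 0` and `b`, at the rational points outside a proper closed
subset. (If `K + Δ` is big then, by Kodaira's lemma, `a (K + Δ) - H` is effective for some `a > 0`.) -/
def GeneralType {M g q w : ℕ} (N : ℕ) (G : Fin g → MvPolynomial (Fin M) ℤ)
    (F : Fin q → Fin w → MvPolynomial (Fin M) ℤ) (d : Fin q → Fin w → ℕ) (m : Fin q → ℕ∞) : Prop :=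
  ∃ (Ψ : MvPolynomial (Fin M) ℚ) (n : ℕ) (a b : ℝ), Ψ.IsHomogeneous n ∧ NonZeroOn G Ψ ∧ 0 < a ∧
    ∀ x : Fin M → ℤ, IsPrimitive x → OnX G x → (∀ i, ∃ j, eval x (F i j) ≠ 0) →
      eval (fun a => (x a : ℚ)) Ψ ≠ 0 → ∃ A : Matrix (Fin M) (Fin (N + 1)) ℤ,
        IsTangentBasis G x A ∧ Real.log (height x) ≤ a * pairHeight F d m x A + b

/-- The integer `z` is a sum of `k` products of elements of `Γ` and integers of absolute value at
most `M`. -/
def Sparse (Γ : Subgroup ℚˣ) (k : ℕ) (M : ℝ) (z : ℤ) : Prop :=
  ∃ (u : Fin k → Γ) (a : Fin k → ℤ), (∀ j, |(a j : ℝ)| ≤ M) ∧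
    (z : ℚ) = ∑ j, ((u j : ℚˣ) : ℚ) * a j

/-- The equations of `D` have at `x` a factorisation with sparse factors, the given exponents and
contents composed of primes of `S`. -/
def Factors {M q w p : ℕ} (Γ : Subgroup ℚˣ) (k : ℕ) (M' : ℝ) (S : Finset ℕ)
    (F : Fin q → Fin w → MvPolynomial (Fin M) ℤ) (ex : Fin q → Fin p → ℕ) (x : Fin M → ℤ) : Prop :=
  ∃ (y : Fin p → ℤ) (c : Fin q → Fin w → ℤ), (∀ l, Sparse Γ k M' (y l)) ∧
    (∀ i j, Sparse Γ k M' (c i j)) ∧ (∀ i j, eval x (F i j) = c i j * ∏ l, y l ^ (ex i l)) ∧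
    ∀ (i : Fin q) (r : ℕ), r.Prime → (∀ j, (r : ℤ) ∣ c i j) → r ∈ S

theorem li_congr {V ι κ : Type} [AddCommGroup V] [Module ℂ V] (P Q : κ → Prop) (h : P = Q)
    (u : ι → V) (v : κ → V)
    (hli : LinearIndependent ℂ (Sum.elim u fun i : {i // Q i} => v i.1)) :
    LinearIndependent ℂ (Sum.elim u fun i : {i // P i} => v i.1) := by
  subst h
  exact hli

theorem coefficient_eq (m : ℕ∞) : coefficient m = 1 - ((m.toNat : ℕ) : ℝ)⁻¹ := by
  unfold coefficient
  split_ifs with h
  · rw [h]
    simp
  · rw [one_div]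

/-- **Main theorem.** Let `X` be a smooth projective variety of dimension `N` over `ℚ` in
`ℙ^(N + s)`, `D = D_1 + ⋯ + D_q` a divisor of `X` with strict normal crossings and
`Δ = ∑ (1 - 1 / m i) D_i`. Let `Γ` be a finitely generated group of nonzero rational numbers, `S` a
finite set of primes, `k` a number, and let the exponents `ex i l` be zero or at least `m i`. The
points `x` of `X` off `D` for which the equations of `D` have a factorisation with these exponents are
Campana points of `(X, Δ)`. For every `ε > 0` there are a form `Φ` that does not vanish on `X` and a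
constant `C` such that `h_(K + Δ)(x) ≤ ε h(x) + C (1 + log M)` if in addition the coordinates of `x`
and the factors are sums of `k` products of elements of `Γ` and integers of absolute value at most
`M`, and `x` is off `Φ = 0`. If `X` is irreducible and `(X, Δ)` of general type then there are a form
`Φ` that does not vanish on `X` and a constant `C` such that `h(x) ≤ C (1 + log M)` for all these
points off `Φ = 0`. -/
theorem result (N s g q w p k : ℕ) (G : Fin g → MvPolynomial (Fin (N + 1 + s)) ℤ)
    (e : Fin g → ℕ) (hG : ∀ k, (G k).IsHomogeneous (e k))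
    (F : Fin q → Fin w → MvPolynomial (Fin (N + 1 + s)) ℤ)
    (d : Fin q → Fin w → ℕ) (hF : ∀ i j, (F i j).IsHomogeneous (d i j))
    (hdim : DimGE N G) (hsm : SmoothPair s G F) (m : Fin q → ℕ∞) (hm : ∀ i, 1 ≤ m i)
    (ex : Fin q → Fin p → ℕ) (hex : ∀ i l, ex i l = 0 ∨ m i ≤ ex i l)
    (hexl : ∀ l, ∃ i, ex i l ≠ 0) (Γ : Subgroup ℚˣ) (hΓ : Γ.FG) (S : Finset ℕ) :
    (∀ (M : ℝ) (x : Fin (N + 1 + s) → ℤ), (∀ i, ∃ j, eval x (F i j) ≠ 0) →
      Factors Γ k M S F ex x → IsCampana S F m x) ∧
    (∀ ε : ℝ, 0 < ε → ∃ (Φ : MvPolynomial (Fin (N + 1 + s)) ℚ) (n : ℕ) (C : ℝ),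
      Φ.IsHomogeneous n ∧ NonZeroOn G Φ ∧
      ∀ M : ℝ, 1 ≤ M → ∀ x : Fin (N + 1 + s) → ℤ, IsPrimitive x → OnX G x →
        (∀ a, Sparse Γ k M (x a)) → (∀ i, ∃ j, eval x (F i j) ≠ 0) → Factors Γ k M S F ex x →
        eval (fun a => (x a : ℚ)) Φ ≠ 0 →
          ∀ A : Matrix (Fin (N + 1 + s)) (Fin (N + 1)) ℤ, IsTangentBasis G x A →
            pairHeight F d m x A ≤ ε * Real.log (height x) + C * (1 + Real.log M)) ∧
    (Irred G → GeneralType N G F d m → ∃ (Φ : MvPolynomial (Fin (N + 1 + s)) ℚ) (n : ℕ) (C : ℝ),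
      Φ.IsHomogeneous n ∧ NonZeroOn G Φ ∧
      ∀ M : ℝ, 1 ≤ M → ∀ x : Fin (N + 1 + s) → ℤ, IsPrimitive x → OnX G x →
        (∀ a, Sparse Γ k M (x a)) → (∀ i, ∃ j, eval x (F i j) ≠ 0) → Factors Γ k M S F ex x →
        eval (fun a => (x a : ℚ)) Φ ≠ 0 → Real.log (height x) ≤ C * (1 + Real.log M)) := by
  classical
  -- Campana points
  have hcamp : ∀ (M : ℝ) (x : Fin (N + 1 + s) → ℤ), (∀ i, ∃ j, eval x (F i j) ≠ 0) →
      Factors Γ k M S F ex x → IsCampana S F m x := by
    rintro M x hFx ⟨y, c, -, -, hfac, hcS⟩ i r hr hrS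
    obtain ⟨j0, hj0⟩ := hFx i
    have hc0 : Finset.univ.gcd (c i) ≠ 0 := by
      intro h0
      apply hj0
      rw [hfac, (Finset.gcd_eq_zero_iff.1 h0) j0 (Finset.mem_univ _), zero_mul]
    have hY : ∏ l, y l ^ (ex i l) ≠ 0 := by
      intro h0
      apply hj0
      rw [hfac, h0, mul_zero]
    have hg : Finset.univ.gcd (fun j => eval x (F i j)) =
        Finset.univ.gcd (c i) * normalize (∏ l, y l ^ (ex i l)) := by
      simp only [hfac]
      exact Finset.gcd_mul_right
    have h1 : (Finset.univ.gcd (fun j => eval x (F i j))).natAbs =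
        (Finset.univ.gcd (c i)).natAbs * ∏ l, (y l).natAbs ^ (ex i l) := by
      rw [hg, Int.natAbs_mul, ← Int.abs_eq_normalize, Int.natAbs_abs]
      congr 1
      refine (map_prod Int.natAbsHom (fun l => y l ^ ex i l) Finset.univ).trans ?_
      exact Finset.prod_congr rfl fun l _ => Int.natAbs_pow _ _
    have h2 : (Finset.univ.gcd (c i)).natAbs.factorization r = 0 := by
      apply Nat.factorization_eq_zero_of_not_dvd
      intro h3
      apply hrS
      apply hcS i r hr
      intro j
      exact (Int.natCast_dvd.2 h3).trans (Finset.gcd_dvd (Finset.mem_univ j))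
    have hyl : ∀ l, (y l).natAbs ^ (ex i l) ≠ 0 := by
      intro l h0
      apply hY
      refine Finset.prod_eq_zero (i := l) (Finset.mem_univ _) ?_
      rw [← Int.natAbs_eq_zero, Int.natAbs_pow]
      exact h0
    have h3 : intersection (F i) r x = ∑ l, ex i l * (y l).natAbs.factorization r := by
      unfold intersection
      rw [h1, Nat.factorization_mul (Int.natAbs_ne_zero.2 hc0)
        (Finset.prod_ne_zero_iff.2 fun l _ => hyl l), Finsupp.add_apply, h2, zero_add,
        Nat.factorization_prod fun l _ => hyl l, Finsupp.finsetSum_apply]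
      exact Finset.sum_congr rfl fun l _ => by rw [Nat.factorization_pow]; rfl
    by_cases h4 : intersection (F i) r x = 0
    · exact Or.inl h4
    · right
      rw [h3] at h4
      obtain ⟨l, hl, hl0⟩ := Finset.exists_ne_zero_of_sum_ne_zero h4
      have h5 : ex i l ≠ 0 := left_ne_zero_of_mul hl0
      have h6 : 1 ≤ (y l).natAbs.factorization r :=
        Nat.one_le_iff_ne_zero.2 (right_ne_zero_of_mul hl0)
      have h7 : ex i l ≤ intersection (F i) r x := by
        rw [h3]
        refine le_trans ?_ (Finset.single_le_sum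
          (f := fun l => ex i l * (y l).natAbs.factorization r) (fun _ _ => Nat.zero_le _) hl)
        exact Nat.le_mul_of_pos_right _ h6
      exact ((hex i l).resolve_left h5).trans (by exact_mod_cast h7)
  -- the inequality
  have hineq : ∀ ε : ℝ, 0 < ε → ∃ (Φ : MvPolynomial (Fin (N + 1 + s)) ℚ) (n : ℕ) (C : ℝ), 0 ≤ C ∧
      Φ.IsHomogeneous n ∧ NonZeroOn G Φ ∧
      ∀ M : ℝ, 1 ≤ M → ∀ x : Fin (N + 1 + s) → ℤ, IsPrimitive x → OnX G x →
        (∀ a, Sparse Γ k M (x a)) → (∀ i, ∃ j, eval x (F i j) ≠ 0) → Factors Γ k M S F ex x →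
        eval (fun a => (x a : ℚ)) Φ ≠ 0 →
          ∀ A : Matrix (Fin (N + 1 + s)) (Fin (N + 1)) ℤ, IsTangentBasis G x A →
            pairHeight F d m x A ≤ ε * Real.log (height x) + C * (1 + Real.log M) := by
    intro ε hε
    obtain ⟨J, hJ⟩ := hdim
    obtain ⟨Φ, C, ⟨n, hn⟩, hΦ0, hmain⟩ := Pool.Agent.Y731.GV.gvFin N s g q w p k G e hG F d hF
      (by
        intro z hz hzG
        obtain ⟨K, J', h⟩ := hsm z hz (fun j => by
          have := hzG j
          rwa [Pool.Agent.Y731.GV.aeval_toQ_complex] at this)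
        refine ⟨K, J', ?_⟩
        have hpq : (fun i : Fin q => ∀ j, aeval z (Pool.Agent.Y731.GV.toQ (F i j)) = 0) =
            fun i : Fin q => ∀ j, aeval z (F i j) = 0 := by
          funext i
          simp only [Pool.Agent.Y731.GV.aeval_toQ_complex]
        simp only [Pool.Agent.Y731.GV.toQ_pderiv]
        refine li_congr _ _ hpq _ (fun (i : Fin q) (c : Fin (N + 1 + s)) =>
          aeval z (Pool.Agent.Y731.GV.toQ (pderiv c (F i (J' i))))) ?_
        simp only [Pool.Agent.Y731.GV.aeval_toQ_complex]
        exact h)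
      J ex (fun l => by
        obtain ⟨i, hi⟩ := hexl l
        exact ⟨i, Nat.one_le_iff_ne_zero.2 hi⟩) Γ hΓ S ε hε
    choose B hB0 hB using fun i => Pool.Agent.Y731.GO.cnt_le_hcomp (F i) (d i) (hF i)
    have hB1 : ∀ i, B i ≤ ∑ i, B i := fun i =>
      Finset.single_le_sum (fun i _ => hB0 i) (Finset.mem_univ i)
    have hBn : 0 ≤ ∑ i, B i := Finset.sum_nonneg fun i _ => hB0 i
    set C' : ℝ := |C| + ∑ i, ((m i).toNat : ℝ)⁻¹ * ∑ i, B i with hC'
    have hmB : 0 ≤ ∑ i, ((m i).toNat : ℝ)⁻¹ * ∑ i, B i :=
      Finset.sum_nonneg fun i _ => mul_nonneg (by positivity) hBn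
    refine ⟨rename J Φ, n, C', by positivity, hn.rename_isHomogeneous, ?_, ?_⟩
    · by_contra hcon
      apply hΦ0
      apply hJ
      intro z hz
      by_contra h0
      apply hcon
      refine ⟨z, hz, ?_⟩
      rw [aeval_rename]
      exact h0
    · rintro M hM x hx hX hxs hFx ⟨y, c, hys, hcs, hfac, hcS⟩ hΦ A hA
      rw [eval_rename] at hΦ
      have h1 := hmain M hM x y c hX hxs hys hcs hfac hFx hx hΦ A (by
        intro κ hκ ρ
        have h5 := Fintype.linearIndependent_iff.1 hA.1 κ (by
          funext j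
          rw [Finset.sum_apply, Pi.zero_apply, ← hκ j]
          exact Finset.sum_congr rfl fun c _ => by rw [Pi.smul_apply, smul_eq_mul])
        exact h5 ρ) (fun ρ j => by
          rw [← hA.2 j ρ]
          exact Finset.sum_congr rfl fun c _ => mul_comm _ _)
      have h2 := Pool.Agent.Y731.GO.orb S F d (∑ i, B i) hBn x
        (fun i => (hB i S x hx (hFx i)).trans (by linarith [hB1 i])) hFx Finset.univ
        (fun i => (m i).toNat) ex (fun i _ l hil => by
          have h3 := (hex i l).resolve_left hil
          have h4 : m i ≠ ⊤ := by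
            intro h
            rw [h, top_le_iff] at h3
            exact ENat.natCast_ne_top _ h3
          have h5 : ((m i).toNat : ℕ∞) = m i := ENat.natCast_toNat h4
          constructor
          · intro h6
            rw [h6] at h5
            have h7 := hm i
            rw [← h5] at h7
            exact absurd h7 (by simp)
          · rw [← h5] at h3
            exact_mod_cast h3)
        (fun l => by
          obtain ⟨i, hi⟩ := hexl l
          exact ⟨i, Nat.one_le_iff_ne_zero.2 hi⟩) y c hfac (fun i _ => by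
            apply Pool.Agent.Y731.GO.cnt_eq_zero
            intro r hr hrc _
            exact hcS i r hr fun j => hrc.trans (Finset.gcd_dvd (Finset.mem_univ j)))
      -- there are no other components
      have h3 : (∏ l ∈ Finset.univ.filter (fun l => ∀ i ∈ (Finset.univ : Finset (Fin q)),
          ex i l = 0), y l) * ∏ i ∈ (Finset.univ : Finset (Fin q))ᶜ, Finset.univ.gcd (c i) = 1 := by
        have h4 : Finset.univ.filter (fun l => ∀ i ∈ (Finset.univ : Finset (Fin q)),
            ex i l = 0) = ∅ := by
          rw [Finset.filter_eq_empty_iff]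
          intro l _ hl
          obtain ⟨i, hi⟩ := hexl l
          exact hi (hl i (Finset.mem_univ _))
        rw [h4, Finset.prod_empty, Finset.compl_univ, Finset.prod_empty, one_mul]
      rw [h3, Pool.Agent.Y731.GO.cnt_one, add_zero] at h2
      have h4 : canonicalHeight x A + ∑ i, componentHeight (F i) (d i) x ≤
          Pool.Agent.Y731.GO.cnt S ((∏ l, y l) * ∏ i, Finset.univ.gcd (c i)) +
            ε * Real.log (height x) + C * (1 + Real.log M) := h1
      have h5 : ∑ i, ((m i).toNat : ℝ)⁻¹ * (Pool.Agent.Y731.GV.hcomp (F i) (d i) x + ∑ i, B i) =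
          ∑ i, ((m i).toNat : ℝ)⁻¹ * componentHeight (F i) (d i) x +
            ∑ i, ((m i).toNat : ℝ)⁻¹ * ∑ i, B i := by
        rw [← Finset.sum_add_distrib]
        exact Finset.sum_congr rfl fun i _ => mul_add _ _ _
      have h6 : pairHeight F d m x A = canonicalHeight x A + ∑ i, componentHeight (F i) (d i) x -
          ∑ i, ((m i).toNat : ℝ)⁻¹ * componentHeight (F i) (d i) x := by
        unfold pairHeight
        rw [add_sub_assoc, ← Finset.sum_sub_distrib]
        congr 1
        exact Finset.sum_congr rfl fun i _ => by rw [coefficient_eq]; ring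
      have hlog : 0 ≤ Real.log M := Real.log_nonneg hM
      have h7 : C * (1 + Real.log M) ≤ |C| * (1 + Real.log M) :=
        mul_le_mul_of_nonneg_right (le_abs_self C) (by linarith)
      have h8 : (∑ i, ((m i).toNat : ℝ)⁻¹ * ∑ i, B i) * 1 ≤
          (∑ i, ((m i).toNat : ℝ)⁻¹ * ∑ i, B i) * (1 + Real.log M) :=
        mul_le_mul_of_nonneg_left (by linarith) hmB
      rw [h6, hC', add_mul]
      rw [h5] at h2
      linarith
  refine ⟨hcamp, fun ε hε => ?_, fun hirr hgt => ?_⟩
  · obtain ⟨Φ, n, C, -, h⟩ := hineq ε hε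
    exact ⟨Φ, n, C, h⟩
  · obtain ⟨Ψ, n', a, b, hΨ, hΨX, ha, hbig⟩ := hgt
    obtain ⟨Φ, n, C, hC, hn, hΦX, hmain⟩ := hineq (1 / (2 * a)) (by positivity)
    refine ⟨Φ * Ψ, n + n', 2 * (a * C + |b|), hn.mul hΨ, hirr Φ Ψ hΦX hΨX, ?_⟩
    intro M hM x hx hX hxs hFx hfac hΦΨ
    rw [map_mul] at hΦΨ
    obtain ⟨A, hA, hle⟩ := hbig x hx hX hFx (right_ne_zero_of_mul hΦΨ)
    have h1 := hmain M hM x hx hX hxs hFx hfac (left_ne_zero_of_mul hΦΨ) A hA
    have h2 := mul_le_mul_of_nonneg_left h1 ha.le
    have h3 : a * (1 / (2 * a) * Real.log (height x) + C * (1 + Real.log M)) =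
        Real.log (height x) / 2 + a * C * (1 + Real.log M) := by
      field_simp
    rw [h3] at h2
    have hlog : 0 ≤ Real.log M := Real.log_nonneg hM
    have h4 : b ≤ |b| * (1 + Real.log M) := by
      have h5 : |b| * 1 ≤ |b| * (1 + Real.log M) :=
        mul_le_mul_of_nonneg_left (by linarith) (abs_nonneg b)
      linarith [le_abs_self b]
    have h5 : 2 * (a * C + |b|) * (1 + Real.log M) =
        2 * (a * C * (1 + Real.log M)) + 2 * (|b| * (1 + Real.log M)) := by ring
    rw [h5]
    linarith

end Pool.Agent.Results.MP_464c42_nt.AllPairsSparse
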