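import Mathlib
import Pool.Agent.Y902.GN.Camp
import Pool.Agent.Y902.GN.FinB

/-!
# Campana points with few prime factors on projective spaces of every dimension

Let `n ≥ 3`, let `X` be the hyperplane `∑ u i * X i = 0` of `P ^ (n - 1)` with its `n` coordinate
hyperplanes `D i`, and `Δ = ∑ (1 - 1 / R) D i`; the pair `(X, Δ)` is of general type when `R > n`. Its
Campana points over `ℤ_S` are the primitive vectors `a` with `∑ u i * a i = 0` all of whose
coordinates are `R`-full outside `S`. For all `n`, `N` and `ε > 0` there are `R` and `δ > 0` such that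
for every `S` there are, for all `Y ≥ 1` and all nonzero integers `u i` of size at most `exp (Y ^ δ)`,
at most `C * Y ^ ε` such points without vanishing partial sum, with coordinates of size at most
`exp (Y ^ δ)`, whose coordinates are products of powers of `N` pairwise coprime integers `≤ Y` (for
example, have at most `N` prime factors altogether, all `≤ Y`).

Method: ultraproduct of counterexamples, `p`-adic determinant method with unbounded exponents as
coefficients, isotypic decomposition of the differential module of relations between the terms.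
-/

set_option autoImplicit false

namespace Pool.Agent.Results.MP_464c42_nt.FewBases

/-- the primitive integer vectors `a` with `∑ u i * a i = 0`, without vanishing proper nonempty
partial sum, with `|a i| ≤ exp (Y ^ δ)`, whose coordinates are, up to sign, products of powers of `N`
pairwise coprime positive integers `≤ Y`, where the exponents of those of the `N` integers which are
not in `S` are zero or at least `R` -/
def CampanaPoints (n N R Y : ℕ) (δ : ℝ) (S : Finset ℕ) (u : Fin n → ℤ) : Set (Fin n → ℤ) :=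
  {a | Finset.univ.gcd a = 1 ∧ ∑ i, u i * a i = 0 ∧
    (∀ K : Finset (Fin n), K.Nonempty → K ≠ Finset.univ → ∑ i ∈ K, u i * a i ≠ 0) ∧
    (∀ i, ((|a i| : ℤ) : ℝ) ≤ Real.exp ((Y : ℝ) ^ δ)) ∧
    ∃ (x : Fin N → ℕ) (e : Fin n → Fin N → ℕ), (∀ j, 1 ≤ x j ∧ x j ≤ Y) ∧
      (∀ j k, j ≠ k → Nat.Coprime (x j) (x k)) ∧
      (∀ i j, x j ∉ S → e i j = 0 ∨ R ≤ e i j) ∧ ∀ i, (a i).natAbs = ∏ j, x j ^ e i j}

/-- For all `n`, `N` and `ε > 0` there are `R` and `δ > 0` such that for every finite set `S` there is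
`C` such that `CampanaPoints n N R Y δ S u` has at most `C * Y ^ ε` elements for all `Y ≥ 1` and all
nonzero integers `u i` with `|u i| ≤ exp (Y ^ δ)`. -/
theorem result (n N : ℕ) (ε : ℝ) (hε : 0 < ε) : ∃ (R : ℕ) (δ : ℝ), 0 < δ ∧
    ∀ S : Finset ℕ, ∃ C : ℝ, ∀ (Y : ℕ) (u : Fin n → ℤ), 1 ≤ Y →
      (∀ i, u i ≠ 0 ∧ ((|u i| : ℤ) : ℝ) ≤ Real.exp ((Y : ℝ) ^ δ)) →
      (CampanaPoints n N R Y δ S u).Finite ∧
      ((CampanaPoints n N R Y δ S u).ncard : ℝ) ≤ C * (Y : ℝ) ^ ε := by
  obtain ⟨R, δ, hδ, h⟩ := Pool.Agent.Y902.GN.camp n N ε hε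
  refine ⟨R, δ, hδ, fun S => ?_⟩
  obtain ⟨M, hM⟩ : ∃ M : ℕ, M = ((S.sup id + 1) ^ R) ^ N := ⟨_, rfl⟩
  refine ⟨((3 * (M + 1)) ^ n : ℕ), fun Y u hY hu => ?_⟩
  refine Pool.Agent.Y902.GN.fin_of_bound _ _ fun T hT => h M Y hY u hu T fun a ha => ?_
  obtain ⟨h1, h2, h3, h4, x, e, h5, h6, h7, h8⟩ := hT a ha
  refine ⟨x, e, ⟨h5, h6, h8, h1, h2, h3, h4, fun i => ?_⟩⟩
  have h9 : ∀ j, (if R ≤ e i j then 1 else x j ^ e i j) ≤ (S.sup id + 1) ^ R := by
    intro j
    split_ifs with hR
    · exact Nat.one_le_pow _ _ (by omega)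
    · by_cases hS : x j ∈ S
      · have h10 : x j ≤ S.sup id := Finset.le_sup (f := id) hS
        calc x j ^ e i j ≤ (S.sup id + 1) ^ e i j := Nat.pow_le_pow_left (by omega) _
          _ ≤ (S.sup id + 1) ^ R := Nat.pow_le_pow_right (by omega) (by omega)
      · rcases h7 i j hS with h10 | h10
        · rw [h10, pow_zero]
          exact Nat.one_le_pow _ _ (by omega)
        · exact absurd h10 hR
  calc ∏ j, (if R ≤ e i j then 1 else x j ^ e i j) ≤ ∏ _j : Fin N, (S.sup id + 1) ^ R :=
        Finset.prod_le_prod' fun j _ => h9 j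
    _ = M := by rw [Finset.prod_const, Finset.card_univ, Fintype.card_fin, hM]

end Pool.Agent.Results.MP_464c42_nt.FewBases
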