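import Mathlib
import Pool.Agent.Y731.GO.Ff

set_option autoImplicit false

/-!
# MP_464c42_nt: Campana points with sparse coordinates on all C-pairs over function fields

`F` is a function field of one variable over an algebraically closed field `k` of characteristic
zero, `X` a smooth projective variety of dimension `N` over `F` in `ℙ^(N + s)` with the equations
`G j = 0` (any number of them), `D = D_1 + ⋯ + D_q` a divisor of `X` with strict normal crossings,
`D_i` the subvariety of `X` with the equations `E i j = 0`, `j < w`, `E i j` of degree `d i j` (not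
necessarily a hypersurface section), `m i` the multiplicity of `D_i` (possibly infinite),
`Δ = ∑ (1 - 1 / m i) D_i`. Neither `X` nor `D` is assumed to be defined over `k`.

The points `x` are those of all finite extensions `L` of `F`, of unbounded degree, which are Campana
points of `(X, Δ)` outside `S`. No factorisation is assumed. Every coordinate of `x` is written as a
sum of `m` elements `t c j` of `L`; the estimates contain the number of the places of `L` at which not
all nonzero `t c j` have the same order. (For instance, if the `t c j` are products of `S`-units and a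
common factor, these are places over `S`.)

First part: for all pairs `h_(K + Δ)(x) ≤ ε h(x) + C ([L : F] + disc(L / F) + n(t))` outside a proper
closed subset. Second part: if the pair is of general type then
`h(x) ≤ C ([L : F] + disc(L / F) + n(t))` outside a proper closed subset.

All heights are those of `L`, that is, `[L : F]` times the heights relative to `F`.
-/

namespace Pool.Agent.Results.MP_464c42_nt.FunctionFieldPairs

open MvPolynomial FF Pool.Agent.W603.PV

section defs

variable {k F L : Type} [Field k] [Field F] [Field L] [Algebra k L] [Algebra F L]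

/-- the minimum of the orders of the nonzero entries of `x` at the place `P` -/
noncomputable def minOrd {ι : Type} (P : Place k L) (x : ι → L) : ℤ :=
  ⨅ c : {c // x c ≠ 0}, P.ord (x c.1)

variable (k) in
/-- The height of the point with the homogeneous coordinates `x`: minus the sum over all places of
the minimum of the orders of the coordinates. -/
noncomputable def height {ι : Type} (x : ι → L) : ℤ := -∑ᶠ P : Place k L, minOrd P x

/-- `x` is a point of the variety `X`. -/
def OnX {n g : ℕ} (G : Fin g → MvPolynomial (Fin n) F) (x : Fin n → L) : Prop :=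
  ∀ j, aeval x (G j) = 0

/-- The local height at `P` with respect to the subvariety with the equations `E j = 0`, `E j` of
degree `d j`: the minimum of the orders of `E j (x) / x_c ^ d j`, `x_c` a coordinate of minimal
order. -/
noncomputable def localHeight {n w : ℕ} (E : Fin w → MvPolynomial (Fin n) F) (d : Fin w → ℕ)
    (P : Place k L) (x : Fin n → L) : ℤ :=
  ⨅ j : {j // aeval x (E j) ≠ 0}, (P.ord (aeval x (E j.1)) - d j.1 * minOrd P x)

variable (k) in
/-- The height `h_(D_i)(x)` for the divisor with the equations `E j = 0`: the sum of all local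
heights. -/
noncomputable def componentHeight {n w : ℕ} (E : Fin w → MvPolynomial (Fin n) F)
    (d : Fin w → ℕ) (x : Fin n → L) : ℤ :=
  ∑ᶠ P : Place k L, localHeight E d P x

/-- `x` is a Campana point outside `S`: at all places of `L` which are not over a place in `S` the
local height of `x` with respect to `D_i` is zero (or negative, at places of bad reduction) or at least
`m i`. -/
def IsCampana [Algebra k F] [IsScalarTower k F L] [IsAlgClosed k] [CharZero k] [IsFF k F]
    [IsFF k L] {n q w : ℕ} (S : Finset (Place k F)) (E : Fin q → Fin w → MvPolynomial (Fin n) F)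
    (d : Fin q → Fin w → ℕ) (m : Fin q → ℕ∞) (x : Fin n → L) : Prop :=
  ∀ P : Place k L, under F P ∉ S → ∀ i, localHeight (E i) (d i) P x ≤ 0 ∨
    m i ≤ ((localHeight (E i) (d i) P x).toNat : ℕ∞)

/-- The columns of `A` are a basis of the tangent space of the affine cone over `X` at `x` (the
vectors orthogonal to all gradients of equations), `X` being smooth of dimension `N` at `x`. -/
def IsTangentBasis {n N g : ℕ} (G : Fin g → MvPolynomial (Fin n) F) (x : Fin n → L)
    (A : Matrix (Fin n) (Fin (N + 1)) L) : Prop :=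
  LinearIndependent L (fun c : Fin (N + 1) => fun j : Fin n => A j c) ∧
    ∀ j c, ∑ a, aeval x (pderiv a (G j)) * A a c = 0

variable (k) in
/-- The height `h_K(x)` for the canonical class `K` of `X`. The Gauss map `γ` sends a point of `X` to
its embedded tangent space, `γ^* O(1) = K + (N + 1) H` for the hyperplane class `H`, and `h_K(x)` is
the height of `γ(x)` (of the vector of the Pluecker coordinates, the maximal minors of `A`) minus
`(N + 1) h(x)`. -/
noncomputable def canonicalHeight {n N : ℕ} (x : Fin n → L) (A : Matrix (Fin n) (Fin (N + 1)) L) :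
    ℤ :=
  height k (fun J : Fin (N + 1) → Fin n => (A.submatrix J id).det) - (N + 1) * height k x

variable (k) in
/-- The places of `L` at which not all nonzero `t c j` have the same order. -/
def unequal {n m : ℕ} (t : Fin n → Fin m → L) : Set (Place k L) :=
  {P | ∃ c j c' j', t c j ≠ 0 ∧ t c' j' ≠ 0 ∧ P.ord (t c j) ≠ P.ord (t c' j')}

variable (k) in
/-- The height `h_(K + Δ)(x)`, `Δ = ∑ (1 - 1 / m i) D_i`, with `1 / ∞ = 0`. -/
noncomputable def pairHeight {n N q w : ℕ} (E : Fin q → Fin w → MvPolynomial (Fin n) F)
    (d : Fin q → Fin w → ℕ) (m : Fin q → ℕ∞) (x : Fin n → L)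
    (A : Matrix (Fin n) (Fin (N + 1)) L) : ℝ :=
  canonicalHeight k x A +
    ∑ i, (if m i = ⊤ then 1 else 1 - 1 / ((m i).toNat : ℝ)) * componentHeight k (E i) (d i) x

end defs

/-- The dimension of `X` is at least `N`: some `N + 1` coordinates are algebraically independent on
the cone over `X`. -/
def DimGE {F : Type} [Field F] {n g : ℕ} (N : ℕ) (G : Fin g → MvPolynomial (Fin n) F) : Prop :=
  ∃ J : Fin (N + 1) → Fin n, ∀ P : MvPolynomial (Fin (N + 1)) F,
    (∀ z : Fin n → AlgebraicClosure F, OnX G z → aeval (fun i => z (J i)) P = 0) → P = 0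

/-- `X` is smooth of codimension `s` and `D` has strict normal crossings on `X`: at each point `z` of
`X` over an algebraic closure of `F`, for suitable `s` equations of `X` and one equation of each
component of `D` through `z` all gradients at `z` are linearly independent. -/
def SmoothPair {F : Type} [Field F] {n g q w : ℕ} (s : ℕ) (G : Fin g → MvPolynomial (Fin n) F)
    (E : Fin q → Fin w → MvPolynomial (Fin n) F) : Prop :=
  ∀ z : Fin n → AlgebraicClosure F, z ≠ 0 → OnX G z →
    ∃ (T : Fin s → Fin g) (J : Fin q → Fin w), LinearIndependent (AlgebraicClosure F)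
      (Sum.elim
        (fun a : Fin s => fun c : Fin n => aeval z (pderiv c (G (T a))))
        (fun i : {i : Fin q // ∀ j, aeval z (E i j) = 0} => fun c : Fin n =>
          aeval z (pderiv c (E i.1 (J i.1)))))

/-- The form `P` does not vanish on `X`. -/
def NonZeroOn {F : Type} [Field F] {n g : ℕ} (G : Fin g → MvPolynomial (Fin n) F)
    (P : MvPolynomial (Fin n) F) : Prop :=
  ∃ z : Fin n → AlgebraicClosure F, OnX G z ∧ aeval z P ≠ 0

/-- `X` is irreducible. -/
def Irred {F : Type} [Field F] {n g : ℕ} (G : Fin g → MvPolynomial (Fin n) F) : Prop :=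
  ∀ P Q : MvPolynomial (Fin n) F, NonZeroOn G P → NonZeroOn G Q → NonZeroOn G (P * Q)

/-- The pair `(X, Δ)` is of general type, `K + Δ` is big, in terms of heights: the height is at most
`a h_(K + Δ) + b [L : F]` for some `a > 0` and `b`, at the points over all finite extensions `L` of `F`
outside a proper closed subset. (If `K + Δ` is big then, by Kodaira's lemma, `a (K + Δ) - H` is
effective for some `a > 0`.) -/
def GeneralType (k : Type) {F : Type} [Field k] [Field F] [Algebra k F] [IsAlgClosed k]
    [CharZero k] [IsFF k F] {n g q w : ℕ} (N : ℕ) (G : Fin g → MvPolynomial (Fin n) F)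
    (E : Fin q → Fin w → MvPolynomial (Fin n) F) (d : Fin q → Fin w → ℕ) (m : Fin q → ℕ∞) : Prop :=
  ∃ (Ψ : MvPolynomial (Fin n) F) (r : ℕ) (a b : ℝ), Ψ.IsHomogeneous r ∧ NonZeroOn G Ψ ∧ 0 < a ∧
    ∀ (L : Type) [Field L] [Algebra k L] [Algebra F L] [IsScalarTower k F L]
      [FiniteDimensional F L] [IsFF k L] (x : Fin n → L), x ≠ 0 → OnX G x →
      (∀ i, ∃ j, aeval x (E i j) ≠ 0) → aeval x Ψ ≠ 0 →
        ∃ A : Matrix (Fin n) (Fin (N + 1)) L, IsTangentBasis G x A ∧
          (height k x : ℝ) ≤ a * pairHeight k E d m x A + b * Module.finrank F L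

/-- **Main theorem.** Let `F` be a function field of one variable over an algebraically closed field
`k` of characteristic zero, `X` a smooth projective variety of dimension `N` over `F` in `ℙ^(N + s)`,
`D = D_1 + ⋯ + D_q` a divisor of `X` with strict normal crossings, `Δ = ∑ (1 - 1 / μ i) D_i`, `S` a
finite set of places of `F` and `m` a number. First part: for every `ε > 0` there are a form `Φ` over
`F` that does not vanish on `X` and a constant `C` such that for all finite extensions `L` of `F`, all
points `x` of `X` over `L`, off `D` and off `Φ = 0`, which are Campana points of `(X, Δ)` outside `S`,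
and all representations of the coordinates of `x` as sums of `m` elements `t c j` of `L`
`h_(K + Δ)(x) ≤ ε h(x) + C ([L : F] + disc(L / F) + n(t))`, where `n(t)` is the number of the places of
`L` at which not all nonzero `t c j` have the same order. Second part: if `X` is irreducible and
`(X, Δ)` of general type, there are a form `Φ` that does not vanish on `X` and a constant `C` such
that `h(x) ≤ C ([L : F] + disc(L / F) + n(t))` for all these points. -/
theorem result {k F : Type} [Field k] [IsAlgClosed k] [CharZero k] [Field F] [Algebra k F]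
    [IsFF k F] (N s g q w m : ℕ) (G : Fin g → MvPolynomial (Fin (N + 1 + s)) F) (e : Fin g → ℕ)
    (hG : ∀ j, (G j).IsHomogeneous (e j))
    (E : Fin q → Fin w → MvPolynomial (Fin (N + 1 + s)) F) (d : Fin q → Fin w → ℕ)
    (hE : ∀ i j, (E i j).IsHomogeneous (d i j)) (hdim : DimGE N G) (hsm : SmoothPair s G E)
    (μ : Fin q → ℕ∞) (hμ : ∀ i, 1 ≤ μ i) (S : Finset (Place k F)) :
    (∀ ε : ℝ, 0 < ε → ∃ (Φ : MvPolynomial (Fin (N + 1 + s)) F) (n : ℕ) (C : ℝ),
      Φ.IsHomogeneous n ∧ NonZeroOn G Φ ∧
      ∀ (L : Type) [Field L] [Algebra k L] [Algebra F L] [IsScalarTower k F L]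
        [FiniteDimensional F L] [IsFF k L] (x : Fin (N + 1 + s) → L)
        (t : Fin (N + 1 + s) → Fin m → L), x ≠ 0 → OnX G x → (∀ i, ∃ j, aeval x (E i j) ≠ 0) →
        aeval x Φ ≠ 0 → IsCampana S E d μ x → (∀ c, x c = ∑ j, t c j) →
        ∀ A : Matrix (Fin (N + 1 + s)) (Fin (N + 1)) L, IsTangentBasis G x A →
          pairHeight k E d μ x A ≤ ε * height k x +
            C * (Module.finrank F L + disc k F L + (unequal k t).ncard)) ∧
    (Irred G → GeneralType k N G E d μ → ∃ (Φ : MvPolynomial (Fin (N + 1 + s)) F) (n : ℕ) (C : ℝ),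
      Φ.IsHomogeneous n ∧ NonZeroOn G Φ ∧
      ∀ (L : Type) [Field L] [Algebra k L] [Algebra F L] [IsScalarTower k F L]
        [FiniteDimensional F L] [IsFF k L] (x : Fin (N + 1 + s) → L)
        (t : Fin (N + 1 + s) → Fin m → L), x ≠ 0 → OnX G x → (∀ i, ∃ j, aeval x (E i j) ≠ 0) →
        aeval x Φ ≠ 0 → IsCampana S E d μ x → (∀ c, x c = ∑ j, t c j) →
          (height k x : ℝ) ≤ C * (Module.finrank F L + disc k F L + (unequal k t).ncard)) := by
  classical
  have hineq : ∀ ε : ℝ, 0 < ε → ∃ (Φ : MvPolynomial (Fin (N + 1 + s)) F) (n : ℕ) (C : ℝ), 0 ≤ C ∧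
      Φ.IsHomogeneous n ∧ NonZeroOn G Φ ∧
      ∀ (L : Type) [Field L] [Algebra k L] [Algebra F L] [IsScalarTower k F L]
        [FiniteDimensional F L] [IsFF k L] (x : Fin (N + 1 + s) → L)
        (t : Fin (N + 1 + s) → Fin m → L), x ≠ 0 → OnX G x → (∀ i, ∃ j, aeval x (E i j) ≠ 0) →
        aeval x Φ ≠ 0 → IsCampana S E d μ x → (∀ c, x c = ∑ j, t c j) →
        ∀ A : Matrix (Fin (N + 1 + s)) (Fin (N + 1)) L, IsTangentBasis G x A →
          pairHeight k E d μ x A ≤ ε * height k x +
            C * (Module.finrank F L + disc k F L + (unequal k t).ncard) := by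
    intro ε hε
    obtain ⟨J, hJ⟩ := hdim
    obtain ⟨Φ, C, ⟨n, hn⟩, hΦ0, hmain⟩ := Pool.Agent.Y731.FG.fgMain (k := k) m G e hG E d hE
      (fun z hz hzG => by
        obtain ⟨T, J', h⟩ := hsm z hz hzG
        exact ⟨T, J', h⟩) J ε hε
    obtain ⟨B, hB0, hB⟩ := Pool.Agent.Y731.GO.orbF E d hE S μ hμ
    refine ⟨rename J Φ, n, C + B, by positivity, hn.rename_isHomogeneous, ?_, ?_⟩
    · by_contra hcon
      apply hΦ0
      apply hJ
      intro z hz
      by_contra h0
      apply hcon
      refine ⟨z, hz, ?_⟩
      rw [aeval_rename]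
      exact h0
    intro L _ _ _ _ _ _ x t hx hX hEx hΦ hC hxt A hA
    rw [aeval_rename] at hΦ
    have hx0 : ∃ c, x c ≠ 0 := by
      by_contra hno
      push Not at hno
      exact hx (funext hno)
    have h1 := hmain L x t A hX hEx hxt hΦ hA.1 hA.2
    have h2 := hB L x hx0 hEx hC
    have h3 : pairHeight k E d μ x A =
        ((Pool.Agent.Y731.FG.hgtP k (fun J : Fin (N + 1) → Fin (N + 1 + s) =>
          (A.submatrix J id).det) - (N + 1) * Pool.Agent.Y731.FG.hgtP k x +
            ∑ i, ∑ᶠ P : Place k L, Pool.Agent.Y731.FG.locH (E i) (d i) P x : ℤ) : ℝ) -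
        ∑ i, ((μ i).toNat : ℝ)⁻¹ *
          ((∑ᶠ P : Place k L, Pool.Agent.Y731.FG.locH (E i) (d i) P x : ℤ) : ℝ) := by
      unfold pairHeight
      have h4 : ∀ i, (if μ i = ⊤ then (1 : ℝ) else 1 - 1 / ((μ i).toNat : ℝ)) =
          1 - ((μ i).toNat : ℝ)⁻¹ := by
        intro i
        split_ifs with h
        · rw [h]
          simp
        · rw [one_div]
      have h5 : ∀ i, (componentHeight k (E i) (d i) x : ℝ) =
          ((∑ᶠ P : Place k L, Pool.Agent.Y731.FG.locH (E i) (d i) P x : ℤ) : ℝ) := fun i => rfl
      have h6 : (canonicalHeight k x A : ℝ) = ((Pool.Agent.Y731.FG.hgtP k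
          (fun J : Fin (N + 1) → Fin (N + 1 + s) => (A.submatrix J id).det) -
            (N + 1) * Pool.Agent.Y731.FG.hgtP k x : ℤ) : ℝ) := rfl
      rw [h6, Int.cast_add, Int.cast_sum, add_sub_assoc, ← Finset.sum_sub_distrib]
      congr 1
      exact Finset.sum_congr rfl fun i _ => by rw [h4, h5]; ring
    have h4 : (0 : ℝ) ≤ disc k F L := by
      exact_mod_cast Pool.Agent.Y731.FG.disc_nonneg (k := k) (F := F) (L := L)
    have h5 : (0 : ℝ) ≤ (unequal k t).ncard := by positivity
    have h6 : (C + B : ℝ) * (Module.finrank F L + disc k F L + (unequal k t).ncard) =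
        C * (Module.finrank F L + disc k F L + (unequal k t).ncard) + B * Module.finrank F L +
          B * (disc k F L + (unequal k t).ncard) := by ring
    have h7 : (0 : ℝ) ≤ B * (disc k F L + (unequal k t).ncard) := by positivity
    have h8 : (height k x : ℝ) = Pool.Agent.Y731.FG.hgtP k x := rfl
    have h9 : ((unequal k t).ncard : ℝ) = (Pool.Agent.Y731.FG.uneq k t).ncard := rfl
    rw [h3, h6, h8, h9]
    rw [h9] at h7
    linarith
  refine ⟨fun ε hε => ?_, fun hirr hgt => ?_⟩
  · obtain ⟨Φ, n, C, -, h⟩ := hineq ε hε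
    exact ⟨Φ, n, C, h⟩
  · obtain ⟨Ψ, n', a, b, hΨ, hΨX, ha, hbig⟩ := hgt
    obtain ⟨Φ, n, C, hC, hn, hΦX, hmain⟩ := hineq (1 / (2 * a)) (by positivity)
    refine ⟨Φ * Ψ, n + n', 2 * (a * C + |b|), hn.mul hΨ, hirr Φ Ψ hΦX hΨX, ?_⟩
    intro L _ _ _ _ _ _ x t hx hX hEx hΦΨ hCa hxt
    rw [map_mul] at hΦΨ
    obtain ⟨A, hA, hle⟩ := hbig L x hx hX hEx (right_ne_zero_of_mul hΦΨ)
    have h1 := hmain L x t hx hX hEx (left_ne_zero_of_mul hΦΨ) hCa hxt A hA
    have h2 := mul_le_mul_of_nonneg_left h1 ha.le
    set Q : ℝ := Module.finrank F L + disc k F L + (unequal k t).ncard with hQ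
    have h3 : a * (1 / (2 * a) * (height k x : ℝ) + C * Q) = (height k x : ℝ) / 2 + a * C * Q := by
      field_simp
    rw [h3] at h2
    have h4 : (0 : ℝ) ≤ disc k F L := by
      exact_mod_cast Pool.Agent.Y731.FG.disc_nonneg (k := k) (F := F) (L := L)
    have h5 : (0 : ℝ) ≤ (unequal k t).ncard := by positivity
    have h6 : b * Module.finrank F L ≤ |b| * Q := by
      have h7 : b * Module.finrank F L ≤ |b| * Module.finrank F L :=
        mul_le_mul_of_nonneg_right (le_abs_self b) (by positivity)
      have h8 : |b| * (Module.finrank F L : ℝ) ≤ |b| * Q :=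
        mul_le_mul_of_nonneg_left (by linarith) (abs_nonneg b)
      linarith
    have h7 : 2 * (a * C + |b|) * Q = 2 * (a * C * Q) + 2 * (|b| * Q) := by ring
    rw [h7]
    linarith

end Pool.Agent.Results.MP_464c42_nt.FunctionFieldPairs
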