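import Pool.Agent.Results.MP_464c42_nt.OrbifoldLines
import Pool.Agent.Y854.GM.Win

/-!
# C-pairs of general type on the line without integral points in windows of heights

Let `v ≥ 1` be a sequence with exponent of convergence at most `τ` (for `v_n = n ^ a` this is `1 / a`, for `v_n = b ^ n`
or `n!` it is `0`), `K` a number field of degree `d`, `S` a finite set of primes and
`Δ = (1 - 1 / m_0) (0) + (1 - 1 / m_1) (1) + (1 - 1 / m_2) (∞)` on the projective line with
`σ = 1 / m_0 + 1 / m_1 + 1 / m_2 < 1`. For all `α > 0` outside a set of Hausdorff dimension at most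
`(min (4 σ / 7) (20 / 37) + τ) / (1 - θ)` and all but finitely many `n` the C-pair has no `S`-integral point `x` over `K`
whose relative height `H_K(x) = exp (d h(x))` satisfies `|H_K(x) - α v_n| ≤ v_n ^ θ`.
-/

set_option autoImplicit false

namespace Pool.Agent.Results.MP_464c42_nt.HeightWindows

open NumberField IsDedekindDomain

/-- the exponent of convergence of the sequence `v` is at most `τ` -/
def ExpLe (v : ℕ → ℝ) (τ : ℝ) : Prop := ∀ t : ℝ, τ < t → Summable (fun n : ℕ => (v n) ^ (-t))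

/-- the absolute logarithmic Weil height `h(x)` -/
noncomputable def height {K : Type} [Field K] [NumberField K] (x : K) : ℝ :=
  (1 / (Module.finrank ℚ K : ℝ)) *
    ((∑ w : InfinitePlace K, (w.mult : ℝ) * Real.log (max 1 (w x))) +
      ∑ᶠ v : HeightOneSpectrum (RingOfIntegers K), Real.log (max 1 (FinitePlace.mk v x)))

/-- the real number `1 / m`, with `1 / ∞ = 0` -/
noncomputable def recip (m : ℕ∞) : ℝ := ((m.toNat : ℕ) : ℝ)⁻¹

/-- `x ≠ 0, 1` is an `S`-integral point of the C-pair with the orders `m_0, m_1, m_2` at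
`0, 1, ∞`: for every prime `v` outside `S` each of the numbers `z = x, x - 1, x⁻¹` which has a
positive valuation at `v` has valuation at least `m_0`, `m_1`, `m_2` respectively (and no positive
valuation if this order is `∞`). -/
def IsIntegral {K : Type} [Field K] [NumberField K] (S : Finset (HeightOneSpectrum (𝓞 K)))
    (m : Fin 3 → ℕ∞) (x : K) : Prop :=
  x ≠ 0 ∧ x ≠ 1 ∧ ∀ v : HeightOneSpectrum (𝓞 K), v ∉ S → ∀ i : Fin 3,
    v.valuation K (![x, x - 1, x⁻¹] i) < 1 →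
      ∃ n : ℕ, m i ≤ n ∧ v.valuation K (![x, x - 1, x⁻¹] i) = WithZero.exp (-(n : ℤ))

lemma count (K : Type) [Field K] [NumberField K] (S : Finset (HeightOneSpectrum (𝓞 K))) (m : Fin 3 → ℕ∞)
    (hm : ∀ i, 1 ≤ m i) (hσ : ∑ i, recip (m i) < 1) (ε : ℝ) (hε : 0 < ε) :
    ∃ C : ℝ, ∀ X : ℝ, 1 ≤ X →
      {x | x ∈ {x : K | IsIntegral S m x} ∧ Real.exp ((Module.finrank ℚ K : ℝ) * height x) ≤ X}.Finite ∧
      ({x | x ∈ {x : K | IsIntegral S m x} ∧ Real.exp ((Module.finrank ℚ K : ℝ) * height x) ≤ X}.ncard : ℝ) ≤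
        C * X ^ (min (4 * (∑ i, recip (m i)) / 7) (20 / 37) + ε) := by
  have hd : (0 : ℝ) < (Module.finrank ℚ K : ℝ) := by exact_mod_cast Module.finrank_pos
  set d : ℝ := (Module.finrank ℚ K : ℝ) with hd'
  obtain ⟨C, hC⟩ := OrbifoldLines.result K S m hm hσ (d * ε) (by positivity)
  refine ⟨C, fun X hX => ?_⟩
  have hX0 : 0 < X := by linarith
  have hB : 1 ≤ X ^ (1 / d) := Real.one_le_rpow hX (by positivity)
  obtain ⟨hfin, hcard⟩ := hC (X ^ (1 / d)) hB
  have hset : {x | x ∈ {x : K | IsIntegral S m x} ∧ Real.exp (d * height x) ≤ X} =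
      OrbifoldLines.points K S m (X ^ (1 / d)) := by
    ext x
    have h1 : Real.exp (d * height x) ≤ X ↔ Real.exp (height x) ≤ X ^ (1 / d) := by
      rw [← Real.le_log_iff_exp_le hX0, ← Real.le_log_iff_exp_le (Real.rpow_pos_of_pos hX0 _), Real.log_rpow hX0]
      rw [one_div, inv_mul_eq_div, le_div_iff₀ hd, mul_comm]
    constructor
    · rintro ⟨h2, h5⟩
      exact ⟨h2, h1.1 h5⟩
    · rintro ⟨h2, h4⟩
      exact ⟨h2, h1.2 h4⟩
  rw [hset]
  refine ⟨hfin, hcard.trans (le_of_eq ?_)⟩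
  rw [← Real.rpow_mul hX0.le]
  congr 2
  rw [← hd']
  field_simp
  rfl

/-- **Theorem.** Let `v ≥ 1` be a sequence of exponent of convergence at most `τ ≥ 0`, `0 ≤ θ < 1`, `K` a number field of
degree `d`, `S` a finite set of primes of `K` and `m_0, m_1, m_2 ∈ {1, 2, …, ∞}` with
`σ = 1 / m_0 + 1 / m_1 + 1 / m_2 < 1`. There is a set `E` of Hausdorff dimension at most
`(min (4 σ / 7) (20 / 37) + τ) / (1 - θ)` such that for each `α > 0` outside `E` and all but finitely many `n` no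
`S`-integral point `x ∈ K` of the C-pair satisfies `|exp (d h(x)) - α v_n| ≤ v_n ^ θ`. The sequences
`v_n = (n + 1) ^ a` and `v_n = b ^ n` have exponent of convergence at most `1 / a` and `0`. -/
theorem result :
    (∀ (K : Type) [Field K] [NumberField K] (S : Finset (HeightOneSpectrum (𝓞 K))) (m : Fin 3 → ℕ∞) (τ θ : ℝ)
      (v : ℕ → ℝ), (∀ i, 1 ≤ m i) → ∑ i, recip (m i) < 1 → (∀ n, 1 ≤ v n) → 0 ≤ τ → ExpLe v τ →
      0 ≤ θ → θ < 1 →
      ∃ E : Set ℝ, dimH E ≤ ENNReal.ofReal ((min (4 * (∑ i, recip (m i)) / 7) (20 / 37) + τ) / (1 - θ)) ∧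
        ∀ α : ℝ, 0 < α → α ∉ E → ∃ n₀ : ℕ, ∀ n : ℕ, n₀ ≤ n → ∀ x : K, IsIntegral S m x →
          (v n) ^ θ < |Real.exp ((Module.finrank ℚ K : ℝ) * height x) - α * v n|) ∧
    (∀ a : ℝ, 0 < a → ExpLe (fun n : ℕ => ((n : ℝ) + 1) ^ a) (1 / a)) ∧
    (∀ b : ℝ, 1 < b → ExpLe (fun n : ℕ => b ^ n) 0) := by
  refine ⟨fun K _ _ S m τ θ v hm hσ hv hτ hE hθ hθ1 => ?_, fun κ hκ => Pool.Agent.Y854.GM.expLe_pow κ hκ,
    fun b hb => Pool.Agent.Y854.GM.expLe_geom b hb⟩
  have hσ0 : 0 ≤ ∑ i, recip (m i) := by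
    apply Finset.sum_nonneg
    intro i _
    unfold recip
    positivity
  obtain ⟨E, h2, h3⟩ := Pool.Agent.Y854.GM.windows {x : K | IsIntegral S m x}
    (fun x => Real.exp ((Module.finrank ℚ K : ℝ) * height x)) hv hτ hE
    (s := min (4 * (∑ i, recip (m i)) / 7) (20 / 37)) (le_min (by positivity) (by norm_num)) hθ1
    (count K S m hm hσ)
  refine ⟨E, h2, fun α hα hαE => ?_⟩
  obtain ⟨n₀, hn⟩ := h3 α hα hαE
  exact ⟨n₀, fun n hn1 x hx => hn n hn1 x hx⟩

end Pool.Agent.Results.MP_464c42_nt.HeightWindows
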